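import Mathlib

/-!
# Every tropical polynomial is rationally factorizable

For every tropical polynomial `f` in `n` variables there are finite tropical products `g`, `h` of
units with `f ⊙ g = h`.
-/

set_option autoImplicit false

open Finset

namespace Pool.Agent.Results.MP_b8ee47_co.RationalFactorization

/-- An expression `max_{a ∈ A} (c_a + a · x)` with `A ⊆ ℕ^n` finite and nonempty and real
coefficients `c_a`. -/
structure TropPoly (n : ℕ) where
  /-- The exponents. -/
  A : Finset (Fin n → ℕ)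
  /-- The coefficients. -/
  c : (Fin n → ℕ) → ℝ
  nonempty : A.Nonempty

/-- The inclusion `ℕ^n ⊆ ℝ^n`. -/
def vec {n : ℕ} (a : Fin n → ℕ) : Fin n → ℝ := fun i => (a i : ℝ)

/-- The affine function `ℓ_a(x) = c_a + a · x`. -/
def term {n : ℕ} (c : (Fin n → ℕ) → ℝ) (a : Fin n → ℕ) (x : Fin n → ℝ) : ℝ := c a + vec a ⬝ᵥ x

namespace TropPoly

variable {n : ℕ}

/-- The function `x ↦ max_{a ∈ A} (c_a + a · x)`. -/
noncomputable def eval (f : TropPoly n) (x : Fin n → ℝ) : ℝ :=
  f.A.sup' f.nonempty fun a => term f.c a x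

/-- The Newton polytope `conv A`. -/
def Newt (f : TropPoly n) : Set (Fin n → ℝ) := convexHull ℝ (vec '' (f.A : Set (Fin n → ℕ)))

/-- The lifted polytope `conv {(a, -c_a) : a ∈ A}`. -/
def lifted (f : TropPoly n) : Set ((Fin n → ℝ) × ℝ) :=
  convexHull ℝ ((fun a => (vec a, -f.c a)) '' (f.A : Set (Fin n → ℕ)))

/-- The lower face of the lifted polytope on which the functional `(y, t) ↦ x · y - t` attains its
maximum over the lifted polytope. -/
def lowerFace (f : TropPoly n) (x : Fin n → ℝ) : Set ((Fin n → ℝ) × ℝ) :=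
  {p | p ∈ f.lifted ∧ ∀ q ∈ f.lifted, x ⬝ᵥ q.1 - q.2 ≤ x ⬝ᵥ p.1 - p.2}

/-- The regular subdivision `Δ_f`: the set of the projections of the lower faces. -/
def subdivision (f : TropPoly n) : Set (Set (Fin n → ℝ)) :=
  {C | ∃ x : Fin n → ℝ, C = Prod.fst '' f.lowerFace x}

/-- `Δ_f` is trivial: its only maximal cell is the Newton polytope. -/
def IsTrivialSubdivision (f : TropPoly n) : Prop :=
  {C | Maximal (· ∈ f.subdivision) C} = {f.Newt}

end TropPoly

/-- A unit: a function `φ` that is a tropical polynomial with trivial subdivision. -/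
def IsTropUnit {n : ℕ} (φ : (Fin n → ℝ) → ℝ) : Prop :=
  ∃ f : TropPoly n, φ = f.eval ∧ f.IsTrivialSubdivision

/-- A finite (nonempty) tropical product of units, i.e. a pointwise sum of finitely many units. -/
def IsProductOfUnits {n : ℕ} (φ : (Fin n → ℝ) → ℝ) : Prop :=
  ∃ us : List ((Fin n → ℝ) → ℝ), us ≠ [] ∧ (∀ u ∈ us, IsTropUnit u) ∧ φ = us.sum

/-- `φ` is rationally factorizable: `φ ⊙ g = h` for two finite tropical products `g`, `h` of
units. -/
def RationallyFactorizable {n : ℕ} (φ : (Fin n → ℝ) → ℝ) : Prop :=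
  ∃ g h : (Fin n → ℝ) → ℝ, IsProductOfUnits g ∧ IsProductOfUnits h ∧ φ + g = h

/-! ### Units from affinely independent exponents -/

section units

variable {n : ℕ}

/-- Affine interpolation on affinely independent points. -/
lemma exists_interp (A : Finset (Fin n → ℕ)) (hA : A.Nonempty) (c : (Fin n → ℕ) → ℝ)
    (hind : AffineIndependent ℝ (fun a : A => vec (a : Fin n → ℕ))) :
    ∃ (x : Fin n → ℝ) (γ : ℝ), ∀ a ∈ A, c a + x ⬝ᵥ vec a = γ := by
  classical
  obtain ⟨a₀, ha₀⟩ := hA
  rw [affineIndependent_iff_linearIndependent_vsub ℝ _ (⟨a₀, ha₀⟩ : A)] at hind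
  let b := Module.Basis.span hind
  let L₀ := b.constr ℝ (fun i : {x : A // x ≠ ⟨a₀, ha₀⟩} => c a₀ - c (i : A))
  obtain ⟨L, hL⟩ := L₀.exists_extend
  refine ⟨fun i => L (Pi.single i 1), c a₀ + L (vec a₀), ?_⟩
  have hLx : ∀ v : Fin n → ℝ, (fun i => L (Pi.single i 1)) ⬝ᵥ v = L v := by
    intro v
    rw [LinearMap.pi_apply_eq_sum_univ L v]
    unfold dotProduct
    apply Finset.sum_congr rfl
    intro i _
    have hs : (fun j => if i = j then (1 : ℝ) else 0) = Pi.single i 1 := by
      ext j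
      simp [Pi.single_apply, eq_comm]
    rw [hs, smul_eq_mul, mul_comm]
  intro a ha
  rw [hLx]
  rcases eq_or_ne a a₀ with rfl | hne
  · rfl
  · have hne' : (⟨a, ha⟩ : A) ≠ ⟨a₀, ha₀⟩ := fun h => hne (congrArg Subtype.val h)
    have h1 : L (vec a - vec a₀) = c a₀ - c a := by
      have h2 := LinearMap.congr_fun hL (b ⟨⟨a, ha⟩, hne'⟩)
      rw [LinearMap.comp_apply, Module.Basis.constr_basis] at h2
      rw [Submodule.subtype_apply, Module.Basis.span_apply] at h2
      exact h2
    rw [map_sub] at h1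
    linarith

lemma fst_image_lifted (f : TropPoly n) : Prod.fst '' f.lifted = f.Newt := by
  unfold TropPoly.lifted TropPoly.Newt
  have h := LinearMap.image_convexHull (LinearMap.fst ℝ (Fin n → ℝ) ℝ)
    ((fun a => (vec a, -f.c a)) '' (f.A : Set (Fin n → ℕ)))
  rw [Set.image_image] at h
  exact h

lemma cell_subset_newt (f : TropPoly n) {C : Set (Fin n → ℝ)} (hC : C ∈ f.subdivision) :
    C ⊆ f.Newt := by
  obtain ⟨x, rfl⟩ := hC
  rw [← fst_image_lifted]
  exact Set.image_mono fun p hp => hp.1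

/-- A tropical polynomial with affinely independent exponents is a unit. -/
lemma isTropUnit_of_affineIndependent (f : TropPoly n)
    (hind : AffineIndependent ℝ (fun a : f.A => vec (a : Fin n → ℕ))) : IsTropUnit f.eval := by
  refine ⟨f, rfl, ?_⟩
  obtain ⟨x, γ, hx⟩ := exists_interp f.A f.nonempty f.c hind
  have hconst : ∀ p ∈ f.lifted, x ⬝ᵥ p.1 - p.2 = γ := by
    have hsub : f.lifted ⊆ {p | x ⬝ᵥ p.1 - p.2 = γ} := by
      apply convexHull_min
      · rintro _ ⟨a, ha, rfl⟩
        have := hx a ha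
        simp only [Set.mem_ofPred_eq]
        linarith
      · intro p hp q hq s t hs ht hst
        simp only [Set.mem_ofPred_eq] at hp hq ⊢
        simp only [Prod.fst_add, Prod.smul_fst, Prod.snd_add, Prod.smul_snd, dotProduct_add,
          dotProduct_smul, smul_eq_mul]
        have : s * (x ⬝ᵥ p.1) + t * (x ⬝ᵥ q.1) - (s * p.2 + t * q.2) =
          s * (x ⬝ᵥ p.1 - p.2) + t * (x ⬝ᵥ q.1 - q.2) := by ring
        rw [this, hp, hq, ← add_mul, hst, one_mul]
    exact fun p hp => hsub hp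
  have hcell : f.Newt ∈ f.subdivision := by
    refine ⟨x, ?_⟩
    rw [← fst_image_lifted]
    congr 1
    ext p
    constructor
    · intro hp
      refine ⟨hp, fun q hq => ?_⟩
      rw [hconst p hp, hconst q hq]
    · intro hp
      exact hp.1
  ext C
  simp only [Set.mem_ofPred_eq, Set.mem_singleton_iff]
  constructor
  · intro hC
    exact Set.Subset.antisymm (cell_subset_newt f hC.1)
      (hC.2 hcell (cell_subset_newt f hC.1))
  · rintro rfl
    exact ⟨hcell, fun D hD _ => cell_subset_newt f hD⟩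

end units

/-! ### Sums and differences of units -/

section rational

variable {n : ℕ}

/-- The additive group generated by the units. -/
def unitGroup (n : ℕ) : AddSubgroup ((Fin n → ℝ) → ℝ) := AddSubgroup.closure {φ | IsTropUnit φ}

/-- There is a unit. -/
lemma exists_unit (n : ℕ) : ∃ u : (Fin n → ℝ) → ℝ, IsTropUnit u := by
  refine ⟨_, isTropUnit_of_affineIndependent ⟨{0}, 0, Finset.singleton_nonempty 0⟩ ?_⟩
  exact affineIndependent_of_subsingleton ℝ _

lemma IsProductOfUnits.add {φ ψ : (Fin n → ℝ) → ℝ} (hφ : IsProductOfUnits φ)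
    (hψ : IsProductOfUnits ψ) : IsProductOfUnits (φ + ψ) := by
  obtain ⟨us, h1, h2, rfl⟩ := hφ
  obtain ⟨vs, h3, h4, rfl⟩ := hψ
  refine ⟨us ++ vs, by simp [h1], ?_, by rw [List.sum_append]⟩
  intro u hu
  rcases List.mem_append.1 hu with h | h
  · exact h2 u h
  · exact h4 u h

lemma IsTropUnit.isProductOfUnits {φ : (Fin n → ℝ) → ℝ} (hφ : IsTropUnit φ) :
    IsProductOfUnits φ := ⟨[φ], by simp, by simpa using hφ, by simp⟩

lemma rationallyFactorizable_of_mem {φ : (Fin n → ℝ) → ℝ} (h : φ ∈ unitGroup n) :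
    RationallyFactorizable φ := by
  induction h using AddSubgroup.closure_induction with
  | mem φ hφ =>
    obtain ⟨u, hu⟩ := exists_unit n
    exact ⟨u, φ + u, hu.isProductOfUnits, IsProductOfUnits.add (IsTropUnit.isProductOfUnits hφ)
      hu.isProductOfUnits, rfl⟩
  | zero =>
    obtain ⟨u, hu⟩ := exists_unit n
    exact ⟨u, u, hu.isProductOfUnits, hu.isProductOfUnits, zero_add u⟩
  | add φ ψ _ _ h1 h2 =>
    obtain ⟨g, h, hg, hh, rfl⟩ := h1
    obtain ⟨g', h', hg', hh', rfl⟩ := h2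
    exact ⟨g + g', _, hg.add hg', hh.add hh', by abel⟩
  | neg φ _ h1 =>
    obtain ⟨g, h, hg, hh, rfl⟩ := h1
    exact ⟨φ + g, g, hh, hg, by abel⟩

end rational

/-! ### The inclusion-exclusion step -/

section step

variable {n : ℕ}

/-- The maximum of the terms over `s` (`0` for empty `s`). -/
noncomputable def mx (c : (Fin n → ℕ) → ℝ) (s : Finset (Fin n → ℕ)) (x : Fin n → ℝ) : ℝ :=
  if h : s.Nonempty then s.sup' h (fun a => term c a x) else 0

lemma mx_eq_eval (c : (Fin n → ℕ) → ℝ) (s : Finset (Fin n → ℕ)) (h : s.Nonempty) :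
    mx c s = (⟨s, c, h⟩ : TropPoly n).eval := by
  ext x
  unfold mx
  rw [dif_pos h]
  rfl

lemma le_mx (c : (Fin n → ℕ) → ℝ) {s : Finset (Fin n → ℕ)} {a : Fin n → ℕ} (ha : a ∈ s)
    (x : Fin n → ℝ) : term c a x ≤ mx c s x := by
  unfold mx
  rw [dif_pos ⟨a, ha⟩]
  exact Finset.le_sup' (fun a => term c a x) ha

lemma mx_le (c : (Fin n → ℕ) → ℝ) {s : Finset (Fin n → ℕ)} (hs : s.Nonempty) (x : Fin n → ℝ)
    {M : ℝ} (h : ∀ a ∈ s, term c a x ≤ M) : mx c s x ≤ M := by
  unfold mx
  rw [dif_pos hs]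
  exact Finset.sup'_le _ _ h

lemma mx_erase (c : (Fin n → ℕ) → ℝ) {s : Finset (Fin n → ℕ)} {a : Fin n → ℕ} (ha : a ∈ s)
    (hs : (s.erase a).Nonempty) (x : Fin n → ℝ) (h : term c a x ≤ mx c (s.erase a) x) :
    mx c (s.erase a) x = mx c s x := by
  apply le_antisymm
  · exact mx_le c hs x fun b hb => le_mx c (Finset.mem_of_mem_erase hb) x
  · apply mx_le c ⟨a, ha⟩ x
    intro b hb
    rcases eq_or_ne b a with rfl | hne
    · exact h
    · exact le_mx c (Finset.mem_erase.2 ⟨hne, hb⟩) x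

/-- The inclusion-exclusion identity. -/
lemma incl_excl (c : (Fin n → ℕ) → ℝ) (A I : Finset (Fin n → ℕ)) (hI : I ⊆ A)
    (hne : (A \ I).Nonempty) (x : Fin n → ℝ)
    (hmin : ∃ i ∈ I, term c i x ≤ mx c (A \ I) x) :
    ∑ J ∈ I.powerset, (-1 : ℝ) ^ J.card * mx c (A \ J) x = 0 := by
  classical
  obtain ⟨i, hi, hle⟩ := hmin
  have hIi : I = insert i (I.erase i) := (Finset.insert_erase hi).symm
  rw [hIi, Finset.sum_powerset_insert (Finset.notMem_erase i I), ← Finset.sum_add_distrib]
  apply Finset.sum_eq_zero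
  intro J hJ
  rw [Finset.mem_powerset] at hJ
  have hiJ : i ∉ J := fun h => Finset.notMem_erase i I (hJ h)
  have hJI : J ⊆ I := hJ.trans (Finset.erase_subset _ _)
  have hsub : A \ I ⊆ (A \ J).erase i := by
    intro a ha
    rw [Finset.mem_sdiff] at ha
    rw [Finset.mem_erase, Finset.mem_sdiff]
    exact ⟨fun h => ha.2 (h ▸ hi), ha.1, fun h => ha.2 (hJI h)⟩
  have e1 : A \ insert i J = (A \ J).erase i := by
    ext a
    simp only [Finset.mem_sdiff, Finset.mem_insert, Finset.mem_erase, not_or]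
    tauto
  have e2 : mx c ((A \ J).erase i) x = mx c (A \ J) x := by
    apply mx_erase c (Finset.mem_sdiff.2 ⟨hI hi, hiJ⟩) (hne.mono hsub)
    exact hle.trans (mx_le c hne x fun a ha => le_mx c (hsub ha) x)
  rw [Finset.card_insert_of_notMem hiJ, e1, e2, pow_succ]
  ring

/-- An affine dependence, written with weights on all of `ℕ^n`. -/
lemma exists_weights (A : Finset (Fin n → ℕ))
    (hdep : ¬ AffineIndependent ℝ (fun a : A => vec (a : Fin n → ℕ))) :
    ∃ W : (Fin n → ℕ) → ℝ, ∑ a ∈ A, W a = 0 ∧ ∑ a ∈ A, W a • vec a = 0 ∧ ∃ a ∈ A, W a ≠ 0 := by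
  classical
  rw [affineIndependent_iff] at hdep
  push Not at hdep
  obtain ⟨s, w, h1, h2, e, he, hwe⟩ := hdep
  let W : (Fin n → ℕ) → ℝ := fun a => if h : a ∈ A then (if ⟨a, h⟩ ∈ s then w ⟨a, h⟩ else 0) else 0
  have hW : ∀ a : A, W a = if a ∈ s then w a else 0 := by
    intro a
    simp only [W]
    rw [dif_pos a.2]
  refine ⟨W, ?_, ?_, e, e.2, ?_⟩
  · rw [← Finset.sum_coe_sort A W]
    simp_rw [hW]
    rw [Finset.sum_ite_mem, Finset.univ_inter]
    exact h1
  · rw [← Finset.sum_coe_sort A (fun a => W a • vec a)]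
    simp_rw [hW, ite_smul, zero_smul]
    rw [Finset.sum_ite_mem, Finset.univ_inter]
    exact h2
  · rw [hW, if_pos he]
    exact hwe

lemma exists_I_aux (c : (Fin n → ℕ) → ℝ) (A : Finset (Fin n → ℕ)) (W : (Fin n → ℕ) → ℝ)
    (h1 : ∑ a ∈ A, W a = 0) (h2 : ∑ a ∈ A, W a • vec a = 0) (h3 : ∃ a ∈ A, W a ≠ 0)
    (hD : ∑ a ∈ A, W a * c a ≤ 0) :
    ∃ I ⊆ A, I.Nonempty ∧ (A \ I).Nonempty ∧
      ∀ x, ∃ i ∈ I, term c i x ≤ mx c (A \ I) x := by
  classical
  obtain ⟨p, hp, hWp⟩ := Finset.exists_pos_of_sum_zero_of_exists_nonzero W h1 h3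
  obtain ⟨q, hq, hWq⟩ := Finset.exists_pos_of_sum_zero_of_exists_nonzero (fun a => -W a)
    (by rw [Finset.sum_neg_distrib, h1, neg_zero])
    (by obtain ⟨a, ha, hne⟩ := h3; exact ⟨a, ha, neg_ne_zero.2 hne⟩)
  refine ⟨A.filter (fun a => 0 < W a), Finset.filter_subset _ _,
    ⟨p, Finset.mem_filter.2 ⟨hp, hWp⟩⟩, ⟨q, Finset.mem_sdiff.2 ⟨hq, fun h => ?_⟩⟩, ?_⟩
  · have := (Finset.mem_filter.1 h).2
    linarith
  intro x
  by_contra hcon
  push Not at hcon
  set I := A.filter (fun a => 0 < W a) with hI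
  set M := mx c (A \ I) x with hM
  have hpos : 0 < ∑ a ∈ A, W a * (term c a x - M) := by
    apply Finset.sum_pos'
    · intro a ha
      by_cases hWa : 0 < W a
      · have := hcon a (Finset.mem_filter.2 ⟨ha, hWa⟩)
        exact mul_nonneg hWa.le (by linarith)
      · have h4 : term c a x ≤ M :=
          le_mx c (Finset.mem_sdiff.2 ⟨ha, fun h => hWa (Finset.mem_filter.1 h).2⟩) x
        exact mul_nonneg_of_nonpos_of_nonpos (not_lt.1 hWa) (by linarith)
    · refine ⟨p, hp, ?_⟩
      have := hcon p (Finset.mem_filter.2 ⟨hp, hWp⟩)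
      exact mul_pos hWp (by linarith)
  have heq : ∑ a ∈ A, W a * (term c a x - M) = ∑ a ∈ A, W a * c a := by
    have e1 : ∑ a ∈ A, W a * (vec a ⬝ᵥ x) = 0 := by
      have e2 : (∑ a ∈ A, W a • vec a) ⬝ᵥ x = ∑ a ∈ A, W a * (vec a ⬝ᵥ x) := by
        rw [sum_dotProduct]
        apply Finset.sum_congr rfl
        intro a _
        rw [smul_dotProduct, smul_eq_mul]
      rw [← e2, h2, zero_dotProduct]
    have e3 : ∀ a ∈ A, W a * (term c a x - M) = W a * c a + W a * (vec a ⬝ᵥ x) - W a * M := by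
      intro a _
      unfold term
      ring
    rw [Finset.sum_congr rfl e3, Finset.sum_sub_distrib, Finset.sum_add_distrib, e1,
      ← Finset.sum_mul, h1]
    ring
  linarith

/-- From an affine dependence one gets a suitable set `I`. -/
lemma exists_I (c : (Fin n → ℕ) → ℝ) (A : Finset (Fin n → ℕ))
    (hdep : ¬ AffineIndependent ℝ (fun a : A => vec (a : Fin n → ℕ))) :
    ∃ I ⊆ A, I.Nonempty ∧ (A \ I).Nonempty ∧
      ∀ x, ∃ i ∈ I, term c i x ≤ mx c (A \ I) x := by
  obtain ⟨W, h1, h2, h3⟩ := exists_weights A hdep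
  rcases le_total (∑ a ∈ A, W a * c a) 0 with hD | hD
  · exact exists_I_aux c A W h1 h2 h3 hD
  · refine exists_I_aux c A (fun a => -W a) ?_ ?_ ?_ ?_
    · rw [Finset.sum_neg_distrib, h1, neg_zero]
    · simp_rw [neg_smul]
      rw [Finset.sum_neg_distrib, h2, neg_zero]
    · obtain ⟨a, ha, hne⟩ := h3
      exact ⟨a, ha, neg_ne_zero.2 hne⟩
    · simp_rw [neg_mul]
      rw [Finset.sum_neg_distrib]
      linarith

end step

/-- The function of every tropical polynomial is a difference of sums of units. -/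
lemma mx_mem_unitGroup {n : ℕ} (c : (Fin n → ℕ) → ℝ) :
    ∀ A : Finset (Fin n → ℕ), A.Nonempty → mx c A ∈ unitGroup n := by
  classical
  intro A
  induction A using Finset.strongInduction with
  | H A ih =>
    intro hA
    by_cases hind : AffineIndependent ℝ (fun a : A => vec (a : Fin n → ℕ))
    · rw [mx_eq_eval c A hA]
      exact AddSubgroup.subset_closure (isTropUnit_of_affineIndependent ⟨A, c, hA⟩ hind)
    · obtain ⟨I, hIA, hI, hAI, hmin⟩ := exists_I c A hind
      have hid : ∑ J ∈ I.powerset, (-1 : ℝ) ^ J.card • mx c (A \ J) = 0 := by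
        ext x
        rw [Finset.sum_apply]
        simp only [Pi.smul_apply, smul_eq_mul, Pi.zero_apply]
        exact incl_excl c A I hIA hAI x (hmin x)
      have hmem : (∅ : Finset (Fin n → ℕ)) ∈ I.powerset := Finset.empty_mem_powerset I
      rw [← Finset.add_sum_erase _ _ hmem] at hid
      simp only [Finset.card_empty, pow_zero, one_smul, Finset.sdiff_empty] at hid
      have h2 : mx c A = -∑ J ∈ I.powerset.erase ∅, (-1 : ℝ) ^ J.card • mx c (A \ J) :=
        eq_neg_of_add_eq_zero_left hid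
      rw [h2]
      apply AddSubgroup.neg_mem
      apply AddSubgroup.sum_mem
      intro J hJ
      rw [Finset.mem_erase, Finset.mem_powerset] at hJ
      have hJne : J.Nonempty := Finset.nonempty_iff_ne_empty.2 hJ.1
      have hlt : A \ J ⊂ A := by
        apply Finset.sdiff_ssubset (hJ.2.trans hIA) hJne
      have hne : (A \ J).Nonempty := hAI.mono (Finset.sdiff_subset_sdiff le_rfl hJ.2)
      have hm := ih (A \ J) hlt hne
      rcases neg_one_pow_eq_or ℝ J.card with h | h
      · rw [h, one_smul]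
        exact hm
      · rw [h, neg_smul, one_smul]
        exact AddSubgroup.neg_mem _ hm

/-- Every tropical polynomial in `n` variables is rationally factorizable. -/
theorem result (n : ℕ) (f : TropPoly n) : RationallyFactorizable f.eval := by
  apply rationallyFactorizable_of_mem
  have h := mx_mem_unitGroup f.c f.A f.nonempty
  rwa [mx_eq_eval f.c f.A f.nonempty] at h

end Pool.Agent.Results.MP_b8ee47_co.RationalFactorization
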